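import Mathlib

set_option autoImplicit false

namespace Pool.Agent.H.MP_93ef73_gt

open Set Metric MeasureTheory Filter Topology

abbrev E := EuclideanSpace ℝ (Fin 2)

noncomputable abbrev mu : Measure E := Measure.hausdorffMeasure 1

theorem glue {A B : ℝ → E} (hA : LipschitzWith 1 A) (hB : LipschitzWith 1 B) (c : ℝ) :
    LipschitzWith 1 fun t => A (min t c) + B (max t c) := by
  refine LipschitzWith.of_dist_le_mul fun s t => ?_
  have h1 := hA.dist_le_mul (min s c) (min t c)
  have h2 := hB.dist_le_mul (max s c) (max t c)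
  refine (dist_add_add_le _ _ _ _).trans ?_
  simp only [NNReal.coe_one, one_mul, Real.dist_eq] at *
  refine (add_le_add h1 h2).trans (le_of_eq ?_)
  rcases le_total s c with a | a <;> rcases le_total t c with b | b <;>
    simp only [a, b, min_eq_left, min_eq_right, max_eq_left, max_eq_right, sub_self, abs_zero,
      add_zero, zero_add]
  · rw [abs_of_nonpos (by linarith), abs_of_nonpos (by linarith), abs_of_nonpos (by linarith)]; ring
  · rw [abs_of_nonneg (by linarith), abs_of_nonneg (by linarith), abs_of_nonneg (by linarith)]; ring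

def P (W : Set E) (e : ℝ) (x y : E) (l : ℝ) : Prop :=
  0 ≤ l ∧ ∃ g : ℝ → E, LipschitzWith 1 g ∧ g 0 = x ∧ g l = y ∧ ∀ t ∈ Icc 0 l, infDist (g t) W ≤ e

variable {W : Set E} {e l : ℝ} {x y : E}

theorem P.step (h : P W e x y l) (hy : y ∈ W) {z : E} {d : ℝ} (hd : dist y z ≤ d)
    (he : dist y z ≤ e) : P W e x z (l + d) := by
  obtain ⟨h0, g, hg, g0, gl, gW⟩ := h
  have d0 : 0 ≤ d := dist_nonneg.trans hd
  set u : E := d⁻¹ • (z - y) with hu
  have hdu : d • u = z - y := by
    rcases d0.eq_or_lt with h | h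
    · have : y = z := dist_le_zero.1 (h ▸ hd)
      simp [← h, this]
    · rw [hu, smul_smul, mul_inv_cancel₀ h.ne', one_smul]
  have hn : d * ‖u‖ = dist y z := by
    have := congrArg norm hdu
    rwa [norm_smul, Real.norm_of_nonneg d0, ← dist_eq_norm, dist_comm] at this
  have hu1 : ‖u‖ ≤ 1 := by
    rcases d0.eq_or_lt with h | h
    · simp [hu, ← h]
    · exact le_of_mul_le_mul_left (by rw [hn, mul_one]; exact hd) h
  have hB : LipschitzWith 1 fun t : ℝ => (t - l) • u := by
    refine LipschitzWith.of_dist_le_mul fun s t => ?_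
    rw [dist_eq_norm, ← sub_smul, norm_smul, sub_sub_sub_cancel_right, Real.dist_eq, NNReal.coe_one,
      one_mul]
    exact mul_le_of_le_one_right (abs_nonneg _) hu1
  refine ⟨by linarith, _, glue hg hB l, ?_, ?_, fun t ht => ?_⟩
  · simp [h0, g0]
  · simp [d0, gl, hdu]
  · rcases le_total t l with a | a
    · simpa [a] using gW t ⟨ht.1, a⟩
    · simp only [a, min_eq_right, max_eq_left, gl]
      refine (infDist_le_dist_of_mem hy).trans ?_
      rw [dist_self_add_left, norm_smul, Real.norm_of_nonneg (by linarith)]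
      refine le_trans ?_ he
      rw [← hn]
      exact mul_le_mul_of_nonneg_right (by linarith [ht.2]) (norm_nonneg _)

theorem P.refl (hx : x ∈ W) (he : 0 ≤ e) : P W e x x 0 :=
  ⟨le_rfl, fun _ => x, (LipschitzWith.const x).weaken zero_le_one, rfl, rfl, fun _ _ => by
    simpa [infDist_zero_of_mem hx] using he⟩

theorem img_le (hW : MeasurableSet W) (he : 0 < e) {f : E → ℝ}
    (hf : ∀ y ∈ W, ∀ z ∈ W, dist y z ≤ e → f z ≤ f y + dist y z) : volume (f '' W) ≤ mu W := by
  let B : ℕ → Set E := fun n => ball (TopologicalSpace.denseSeq E n) (e / 2)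
  have hB : ⋃ n, disjointed B n = univ := by
    rw [iUnion_disjointed, eq_univ_iff_forall]
    intro z
    obtain ⟨n, hn⟩ := (TopologicalSpace.denseRange_denseSeq E).exists_dist_lt z (half_pos he)
    exact mem_iUnion.2 ⟨n, hn⟩
  have hm : ∀ n, MeasurableSet (W ∩ disjointed B n) := fun n =>
    hW.inter (MeasurableSet.disjointed (fun _ => measurableSet_ball) n)
  have e1 : W = ⋃ n, W ∩ disjointed B n := by rw [← inter_iUnion, hB, inter_univ]
  rw [e1, measure_iUnion (fun i j hij => (disjoint_disjointed B hij).mono inter_subset_right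
    inter_subset_right) hm, image_iUnion]
  refine (measure_iUnion_le _).trans (ENNReal.tsum_le_tsum fun n => ?_)
  have hl : LipschitzOnWith 1 f (W ∩ disjointed B n) := by
    refine LipschitzOnWith.of_dist_le_mul fun y hy z hz => ?_
    have a := disjointed_subset B n hy.2
    have b := disjointed_subset B n hz.2
    have c : dist y z ≤ e := by
      have := dist_triangle_right y z (TopologicalSpace.denseSeq E n)
      simp only [B, mem_ball] at a b
      linarith
    have h1 := hf y hy.1 z hz.1 c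
    have h2 := hf z hz.1 y hy.1 (dist_comm y z ▸ c)
    rw [dist_comm z y] at h2
    rw [Real.dist_eq, NNReal.coe_one, one_mul, abs_le]
    constructor <;> linarith
  simpa [hausdorffMeasure_real] using hl.hausdorffMeasure_image_le zero_le_one

theorem diff_le (hW : MeasurableSet W) (hc : IsPreconnected W) (he : 0 < e) {f : E → ℝ}
    (hf : ∀ y ∈ W, ∀ z ∈ W, dist y z ≤ e → f z ≤ f y + dist y z) (hx : x ∈ W) (hy : y ∈ W) :
    ENNReal.ofReal (f y - f x) ≤ mu W := by
  have hcont : ContinuousOn f W := by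
    rw [Metric.continuousOn_iff]
    intro b hb r hr
    refine ⟨min r e, lt_min hr he, fun a ha hab => ?_⟩
    have h1 := hf a ha b hb (hab.le.trans (min_le_right _ _))
    have h2 := hf b hb a ha (dist_comm a b ▸ hab.le.trans (min_le_right _ _))
    have h3 := hab.trans_le (min_le_left _ _)
    rw [dist_comm b a] at h2
    rw [Real.dist_eq, abs_lt]
    constructor <;> linarith
  rw [← Real.volume_Icc]
  exact (measure_mono (hc.intermediate_value hx hy hcont)).trans (img_le hW he hf)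

theorem P_eps (hW : MeasurableSet W) (hc : IsPreconnected W) (hfin : mu W ≠ ⊤) (he : 0 < e)
    (hx : x ∈ W) (hy : y ∈ W) : P W e x y ((mu W).toReal + e) := by
  have hr : ∀ z ∈ W, ∃ l, P W e x z l := by
    intro z hz
    refine hc.induction₂' (fun a b => (∃ l, P W e x a l) → ∃ l, P W e x b l)
      (fun a ha => ?_) (fun a b c _ _ _ h1 h2 h => h2 (h1 h)) hx hz ⟨0, P.refl hx he.le⟩
    filter_upwards [self_mem_nhdsWithin, mem_nhdsWithin_of_mem_nhds (closedBall_mem_nhds a he)]
      with b hb hab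
    exact ⟨fun ⟨l, h⟩ => ⟨_, h.step ha le_rfl (dist_comm a b ▸ hab)⟩,
      fun ⟨l, h⟩ => ⟨_, h.step hb le_rfl hab⟩⟩
  let f : E → ℝ := fun z => sInf {l | P W e x z l}
  have hb : ∀ z, BddBelow {l | P W e x z l} := fun z => ⟨0, fun l hl => hl.1⟩
  have h1 := diff_le hW hc he (f := f) (fun a ha b _ hab => by
    rw [← sub_le_iff_le_add]
    exact le_csInf (hr a ha) fun l hl => sub_le_iff_le_add.2 (csInf_le (hb b) (P.step hl ha le_rfl hab)))
    hx hy
  have h2 : f x ≤ 0 := csInf_le (hb x) (P.refl hx he.le)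
  rw [ENNReal.ofReal_le_iff_le_toReal hfin] at h1
  obtain ⟨l, hl, h3⟩ := exists_lt_of_csInf_lt (hr y hy) (show f y < (mu W).toReal + e by linarith)
  have := P.step hl hy (z := y) (d := (mu W).toReal + e - l) (by simp; linarith) (by simp [he.le])
  simpa using this

theorem P_lim (hl : 0 ≤ l) (h : ∀ e > 0, P W e x y (l + e)) : P W 0 x y l := by
  let r : ℕ → ℝ := fun n => 1 / ((n : ℝ) + 1)
  have hr : Tendsto r (hyperfilter ℕ) (𝓝 0) :=
    tendsto_one_div_add_atTop_nhds_zero_nat.mono_left Nat.hyperfilter_le_atTop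
  choose g hg g0 gl gW using fun n => (h (r n) Nat.one_div_pos_of_nat).2
  have hx : ∀ t, ∃ z, Tendsto (fun n => g n t) (hyperfilter ℕ) (𝓝 z) := by
    intro t
    obtain ⟨z, _, hz⟩ := (isCompact_closedBall x (dist t 0)).ultrafilter_le_nhds
      ((hyperfilter ℕ).map fun n => g n t) (by
        rw [Ultrafilter.coe_map, le_principal_iff, mem_map]
        refine univ_mem' fun n => ?_
        simpa [g0] using (hg n).dist_le_mul t 0)
    exact ⟨z, hz⟩
  choose G hG using hx
  refine ⟨hl, G, LipschitzWith.of_dist_le_mul fun s t => le_of_tendsto' ((hG s).dist (hG t))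
    fun n => (hg n).dist_le_mul s t, ?_, ?_, fun t ht => ?_⟩
  · exact tendsto_nhds_unique (hG 0) (by simp [g0])
  · refine dist_le_zero.1 (le_of_tendsto_of_tendsto' ((hG l).dist tendsto_const_nhds) hr fun n => ?_)
    have := (hg n).dist_le_mul l (l + r n)
    rw [gl] at this
    have h0 : 0 < r n := Nat.one_div_pos_of_nat
    simpa [abs_of_pos h0] using this
  · refine le_of_tendsto_of_tendsto' (((continuous_infDist_pt W).tendsto _).comp (hG t)) hr fun n => ?_
    exact gW n t ⟨ht.1, ht.2.trans (le_add_of_nonneg_right (Nat.one_div_pos_of_nat : 0 < r n).le)⟩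

def Arc (x y : E) (K : Set E) : Prop :=
  ∃ (g : ℝ → E) (s t : ℝ), s ≤ t ∧ Continuous g ∧ InjOn g (Icc s t) ∧ g s = x ∧ g t = y ∧
    K = g '' Icc s t

theorem arc_ex (hW : IsCompact W) (hc : IsPreconnected W) (hfin : mu W ≠ ⊤) (hx : x ∈ W)
    (hy : y ∈ W) : ∃ K ⊆ W, Arc x y K := by
  have h0 : {l | P W 0 x y l}.Nonempty :=
    ⟨_, P_lim ENNReal.toReal_nonneg fun e he => P_eps hW.measurableSet hc hfin he hx hy⟩
  have hb : BddBelow {l | P W 0 x y l} := ⟨0, fun l hl => hl.1⟩
  set m := sInf {l | P W 0 x y l} with hm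
  have h1 : P W 0 x y m := by
    refine P_lim (le_csInf h0 fun l hl => hl.1) fun e he => ?_
    obtain ⟨l, ⟨l0, g, a, b, c, d⟩, h3⟩ := exists_lt_of_csInf_lt h0 (show m < m + e by linarith)
    have : P W e x y l := ⟨l0, g, a, b, c, fun t ht => (d t ht).trans he.le⟩
    simpa using this.step hy (z := y) (d := m + e - l) (by simp; linarith) (by simp [he.le])
  obtain ⟨m0, g, hg, g0, gm, gW⟩ := h1
  refine ⟨g '' Icc 0 m, ?_, g, 0, m, m0, hg.continuous, ?_, g0, gm, rfl⟩
  · rintro _ ⟨t, ht, rfl⟩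
    exact (hW.isClosed.mem_iff_infDist_zero ⟨x, hx⟩).2 (le_antisymm (gW t ht) infDist_nonneg)
  · have key : ∀ u ∈ Icc 0 m, ∀ v ∈ Icc 0 m, u < v → g u ≠ g v := by
      intro u hu v hv huv h
      have hB : LipschitzWith 1 fun t : ℝ => g (t + (v - u)) - g v :=
        LipschitzWith.of_dist_le_mul fun s t => by
          simpa using hg.dist_le_mul (s + (v - u)) (t + (v - u))
      have : P W 0 x y (m - (v - u)) := by
        have a : u ≤ m - (v - u) := by linarith [hv.2]
        refine ⟨hu.1.trans a, _, glue hg hB u, by simp [hu.1, g0], by simp [a, h, gm], fun t ht => ?_⟩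
        rcases le_total t u with b | b
        · simpa [b] using gW t ⟨ht.1, b.trans hu.2⟩
        · simpa [b, h] using gW (t + (v - u)) ⟨by linarith [ht.1], by linarith [ht.2]⟩
      linarith [csInf_le hb this]
    intro u hu v hv h
    rcases lt_trichotomy u v with a | a | a
    · exact absurd h (key u hu v hv a)
    · exact a
    · exact absurd h.symm (key v hv u hu a)

theorem Arc.left {K : Set E} (h : Arc x y K) : x ∈ K := by
  obtain ⟨g, s, t, st, -, -, rfl, -, rfl⟩ := h
  exact ⟨s, ⟨le_rfl, st⟩, rfl⟩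

theorem Arc.right {K : Set E} (h : Arc x y K) : y ∈ K := by
  obtain ⟨g, s, t, st, -, -, -, rfl, rfl⟩ := h
  exact ⟨t, ⟨st, le_rfl⟩, rfl⟩

theorem Arc.compact {K : Set E} (h : Arc x y K) : IsCompact K := by
  obtain ⟨g, s, t, -, hg, -, -, -, rfl⟩ := h
  exact isCompact_Icc.image hg

theorem Arc.le {K : Set E} (h : Arc x y K) : ENNReal.ofReal (dist x y) ≤ mu K := by
  have hc : IsPreconnected K := by
    obtain ⟨g, s, t, -, hg, -, -, -, rfl⟩ := h
    exact isPreconnected_Icc.image _ hg.continuousOn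
  simpa using diff_le h.compact.measurableSet hc one_pos (f := dist x)
    (fun a _ b _ _ => dist_triangle _ _ _) h.left h.right

theorem Arc.split {K : Set E} (h : Arc x y K) {z : E} (hz : z ∈ K) :
    ∃ A B, Arc x z A ∧ Arc z y B ∧ K = A ∪ B ∧ A ∩ B ⊆ {z} := by
  obtain ⟨g, s, t, st, hg, hi, rfl, rfl, rfl⟩ := h
  obtain ⟨u, hu, rfl⟩ := hz
  refine ⟨_, _, ⟨g, s, u, hu.1, hg, hi.mono (Icc_subset_Icc_right hu.2), rfl, rfl, rfl⟩,
    ⟨g, u, t, hu.2, hg, hi.mono (Icc_subset_Icc_left hu.1), rfl, rfl, rfl⟩, ?_, ?_⟩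
  · rw [← image_union, Icc_union_Icc_eq_Icc hu.1 hu.2]
  · rintro _ ⟨⟨a, ha, rfl⟩, b, hb, h⟩
    have := hi ⟨hu.1.trans hb.1, hb.2⟩ ⟨ha.1, ha.2.trans hu.2⟩ h
    rw [show a = u from le_antisymm ha.2 (this ▸ hb.1)]
    rfl

theorem Arc.first {K C : Set E} (h : Arc x y K) (hC : IsClosed C) (hy : y ∈ C) :
    ∃ z ∈ C, ∃ A ⊆ K, Arc x z A ∧ A ∩ C ⊆ {z} := by
  obtain ⟨g, s, t, st, hg, hi, rfl, rfl, rfl⟩ := h
  obtain ⟨u, hu, hm⟩ := (isCompact_Icc.inter_right (hC.preimage hg)).exists_isLeast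
    ⟨t, ⟨st, le_rfl⟩, hy⟩
  refine ⟨g u, hu.2, _, image_mono (Icc_subset_Icc_right hu.1.2),
    ⟨g, s, u, hu.1.1, hg, hi.mono (Icc_subset_Icc_right hu.1.2), rfl, rfl, rfl⟩, ?_⟩
  rintro _ ⟨⟨a, ha, rfl⟩, h⟩
  rw [show a = u from le_antisymm ha.2 (hm ⟨⟨ha.1, ha.2.trans hu.1.2⟩, h⟩)]
  rfl

def Good : List (E × E) → Set E → Prop
  | [], U => U = ∅
  | e :: l, U => ∃ K V, Arc e.1 e.2 K ∧ Good l V ∧ (K ∩ V).Finite ∧ U = K ∪ V

def Sp (z : E) : List (E × E) → List (E × E) → Prop
  | [], _ => False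
  | e :: l, m => m = (e.1, z) :: (z, e.2) :: l ∨ ∃ k, Sp z l k ∧ m = e :: k

theorem Good.compact : ∀ {l : List (E × E)} {U : Set E}, Good l U → IsCompact U
  | [], _, h => h ▸ isCompact_empty
  | _ :: _, _, ⟨_, _, a, b, _, d⟩ => d ▸ a.compact.union b.compact

theorem Good.le : ∀ {l : List (E × E)} {U : Set E}, Good l U →
    ENNReal.ofReal (l.map fun e => dist e.1 e.2).sum ≤ mu U
  | [], _, _ => by simp
  | _ :: _, _, ⟨_, _, a, b, c, d⟩ => by
    haveI : NullSingletonClass mu := Measure.nullSingletonClass_hausdorff E one_pos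
    rw [d, measure_union₀ b.compact.measurableSet.nullMeasurableSet (c.measure_zero _),
      List.map_cons, List.sum_cons]
    exact ENNReal.ofReal_add_le.trans (add_le_add a.le b.le)

theorem Good.split {z : E} : ∀ {l : List (E × E)} {U : Set E}, Good l U → z ∈ U →
    ∃ m, Sp z l m ∧ Good m U
  | [], _, h, hz => by rw [h] at hz; exact hz.elim
  | e :: l, _, ⟨K, V, a, b, c, d⟩, hz => by
    subst d
    rcases hz with hz | hz
    · obtain ⟨A, B, h1, h2, rfl, h4⟩ := a.split hz
      refine ⟨_, Or.inl rfl, A, B ∪ V, h1, ⟨B, V, h2, b,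
        c.subset (inter_subset_inter_left _ subset_union_right), rfl⟩, ?_, union_assoc _ _ _⟩
      rw [inter_union_distrib_left]
      exact ((finite_singleton z).subset h4).union
        (c.subset (inter_subset_inter_left _ subset_union_left))
    · obtain ⟨m, h1, h2⟩ := b.split hz
      exact ⟨_, Or.inr ⟨m, h1, rfl⟩, K, V, a, h2, c, rfl⟩

theorem ins (hW : IsCompact W) (hc : IsPreconnected W) (hfin : mu W ≠ ⊤) {l : List (E × E)}
    {U : Set E} (h : Good l U) (hU : U ⊆ W) (hy : y ∈ U) (hx : x ∈ W) :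
    ∃ z m V, Sp z l m ∧ Good ((x, z) :: m) V ∧ V ⊆ W ∧ y ∈ V := by
  obtain ⟨K, hK, a⟩ := arc_ex hW hc hfin hx (hU hy)
  obtain ⟨z, hz, A, hA, b, c⟩ := a.first h.compact.isClosed hy
  obtain ⟨m, h1, h2⟩ := h.split hz
  exact ⟨z, m, _, h1, ⟨A, U, b, h2, (finite_singleton z).subset c, rfl⟩,
    union_subset (hA.trans hK) hU, Or.inr hy⟩

def C7 (a b c d v : E) (L : ℝ) : Prop :=
  (∃ s t, dist d t + dist c t + dist t s + dist a s + dist s b ≤ L) ∨
  dist a d + dist b c ≤ L ∨ ∃ s t z,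
  dist v z + dist d z + dist z t + dist c s + dist a s + dist s t + dist t b ≤ L ∨
  dist v z + dist d t + dist c z + dist z s + dist a s + dist s t + dist t b ≤ L ∨
  dist v z + dist d t + dist c s + dist a z + dist z s + dist s t + dist t b ≤ L ∨
  dist v z + dist d t + dist c s + dist a s + dist s z + dist z t + dist t b ≤ L ∨
  dist v z + dist d t + dist c s + dist a s + dist s t + dist t z + dist z b ≤ L

theorem cases7 (hW : IsCompact W) (hc : IsPreconnected W) (hfin : mu W ≠ ⊤) {a b c d v : E}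
    (ha : a ∈ W) (hb : b ∈ W) (hc' : c ∈ W) (hd : d ∈ W) (hv : v ∈ W) :
    C7 a b c d v (mu W).toReal := by
  have fin : ∀ {l : List (E × E)} {U : Set E}, Good l U → U ⊆ W →
      (l.map fun e => dist e.1 e.2).sum ≤ (mu W).toReal := fun h hU =>
    (ENNReal.ofReal_le_iff_le_toReal hfin).1 (h.le.trans (measure_mono hU))
  obtain ⟨K, hK, h0⟩ := arc_ex hW hc hfin ha hb
  have g1 : Good [(a, b)] K := ⟨K, ∅, h0, rfl, by simp, by simp⟩
  obtain ⟨s, _, U, rfl | ⟨_, ⟨⟩, -⟩, g2, hU, aU⟩ := ins hW hc hfin g1 hK h0.left hc'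
  obtain ⟨t, _, V, rfl | ⟨_, rfl | ⟨_, rfl | ⟨_, ⟨⟩, -⟩, rfl⟩, rfl⟩, g3, hV, aV⟩ :=
    ins hW hc hfin g2 hU aU hd
  · have := fin g3 hV
    exact Or.inl ⟨s, t, by simp at this; linarith⟩
  · have := fin g3 hV
    refine Or.inr (Or.inl ?_)
    simp at this
    linarith [dist_triangle_right a d t, dist_triangle b s c, dist_comm b s, dist_comm s c,
      dist_nonneg (x := t) (y := s)]
  obtain ⟨z, _, Z, rfl | ⟨_, rfl | ⟨_, rfl | ⟨_, rfl | ⟨_, rfl | ⟨_, ⟨⟩, -⟩, rfl⟩, rfl⟩, rfl⟩, rfl⟩,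
    g4, hZ, -⟩ := ins hW hc hfin g3 hV aV hv
  all_goals
    have := fin g4 hZ
    refine Or.inr (Or.inr ⟨s, t, z, ?_⟩)
    simp at this
  · exact Or.inl (by linarith)
  · exact Or.inr (Or.inl (by linarith))
  · exact Or.inr (Or.inr (Or.inl (by linarith)))
  · exact Or.inr (Or.inr (Or.inr (Or.inl (by linarith))))
  · exact Or.inr (Or.inr (Or.inr (Or.inr (by linarith))))

end Pool.Agent.H.MP_93ef73_gt
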