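import Pool.Agent.H.MP_93ef73_gt.A

set_option autoImplicit false

namespace Pool.Agent.H.MP_93ef73_gt

open Set Metric MeasureTheory

noncomputable def pt (x y : ℝ) : E := !₂[x, √3 * y]
def X (z : E) : ℝ := z 0
noncomputable def Y (z : E) : ℝ := √3 * z 1

theorem s3 : √3 * √3 = (3 : ℝ) := Real.mul_self_sqrt (by norm_num)

@[simp] theorem X_pt (x y : ℝ) : X (pt x y) = x := rfl

@[simp] theorem Y_pt (x y : ℝ) : Y (pt x y) = 3 * y := by
  show √3 * (√3 * y) = _
  rw [← mul_assoc, s3]

theorem ext_xy {z w : E} (h1 : X z = X w) (h2 : Y z = Y w) : z = w := by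
  ext i
  fin_cases i
  · exact h1
  · exact mul_left_cancel₀ (by positivity : √3 ≠ (0 : ℝ)) h2

@[simp] theorem pt_inj {x y u v : ℝ} : pt x y = pt u v ↔ x = u ∧ y = v :=
  ⟨fun h => ⟨by simpa using congrArg X h, by simpa using congrArg Y h⟩, fun h => by rw [h.1, h.2]⟩

theorem dist_sq (z w : E) : dist z w ^ 2 = (X z - X w) ^ 2 + (Y z - Y w) ^ 2 / 3 := by
  rw [EuclideanSpace.dist_sq_eq]
  simp only [Fin.sum_univ_two, Real.dist_eq, sq_abs, X, Y]
  linear_combination (-(z 1 - w 1) ^ 2 / 3) * s3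

theorem ed (p q t : ℝ) (z w : E) (h : p ^ 2 + 3 * q ^ 2 ≤ t ^ 2 ∧ 0 ≤ t) :
    p * (X z - X w) + q * (Y z - Y w) ≤ t * dist z w := by
  refine abs_le_of_sq_le_sq' ?_ (mul_nonneg h.2 dist_nonneg) |>.2
  rw [mul_pow, dist_sq]
  nlinarith [mul_le_mul_of_nonneg_right h.1 (show 0 ≤ (X z - X w) ^ 2 + (Y z - Y w) ^ 2 / 3 by positivity),
    sq_nonneg (p * (Y z - Y w) - 3 * q * (X z - X w))]

theorem bl (p q t : ℝ) {x y r : ℝ} {w : E} (hw : dist (pt x y) w ≤ r) (h : p ^ 2 + 3 * q ^ 2 ≤ t ^ 2)
    (ht : 0 ≤ t) : p * (x - X w) + q * (3 * y - Y w) ≤ t * r := by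
  simpa using (ed p q t (pt x y) w ⟨h, ht⟩).trans (mul_le_mul_of_nonneg_left hw ht)

theorem numA {a b c d v : E} {L : ℝ}
    (ha : dist (pt (-19) (11)) a ≤ (0))
    (hb : dist (pt (-19) (-11)) b ≤ (0))
    (hc : dist (pt (19) (11)) c ≤ (0))
    (hd : dist (pt (19) (-11)) d ≤ (0))
    (hv : dist (pt (2) (0)) v ≤ (0))
    (h : C7 a b c d v L) : 104 ≤ L := by
  rcases h with ⟨s, t, h⟩ | h | ⟨s, t, z, h | h | h | h | h⟩
  · linarith [ed (1/2) (-1/2) 1 d t (by norm_num),
      ed (1/2) (1/2) 1 c t (by norm_num),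
      ed (1) (0) 1 t s (by norm_num),
      ed (-1/2) (1/2) 1 a s (by norm_num),
      ed (1/2) (1/2) 1 s b (by norm_num),
      bl (-1/2) (1/2) (1) ha (by norm_num) (by norm_num),
      bl (-1/2) (-1/2) (1) hb (by norm_num) (by norm_num),
      bl (1/2) (1/2) (1) hc (by norm_num) (by norm_num),
      bl (1/2) (-1/2) (1) hd (by norm_num) (by norm_num)]
  · linarith [ed (-7/10) (2/5) 1 a d (by norm_num),
      ed (-7/10) (-2/5) 1 b c (by norm_num),
      bl (-7/10) (2/5) (99/100) ha (by norm_num) (by norm_num),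
      bl (7/10) (-2/5) (99/100) hd (by norm_num) (by norm_num),
      bl (-7/10) (-2/5) (99/100) hb (by norm_num) (by norm_num),
      bl (7/10) (2/5) (99/100) hc (by norm_num) (by norm_num)]
  · linarith [ed (11/100) (6/25) 1 v z (by norm_num),
      ed (83/125) (-107/250) 1 d z (by norm_num),
      ed (387/500) (-47/250) 1 z t (by norm_num),
      ed (211/250) (153/500) 1 c s (by norm_num),
      ed (-22/25) (67/250) 1 a s (by norm_num),
      ed (-9/250) (287/500) 1 s t (by norm_num),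
      ed (369/500) (193/500) 1 t b (by norm_num),
      bl (83/125) (-107/250) (1) hd (by norm_num) (by norm_num),
      bl (211/250) (153/500) (1) hc (by norm_num) (by norm_num),
      bl (-22/25) (67/250) (1) ha (by norm_num) (by norm_num),
      bl (-369/500) (-193/500) (1) hb (by norm_num) (by norm_num),
      bl (11/100) (6/25) (43/100) hv (by norm_num) (by norm_num)]
  · linarith [ed (11/100) (-6/25) 1 v z (by norm_num),
      ed (211/250) (-153/500) 1 d t (by norm_num),
      ed (83/125) (107/250) 1 c z (by norm_num),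
      ed (387/500) (47/250) 1 z s (by norm_num),
      ed (-369/500) (193/500) 1 a s (by norm_num),
      ed (9/250) (287/500) 1 s t (by norm_num),
      ed (22/25) (67/250) 1 t b (by norm_num),
      bl (211/250) (-153/500) (1) hd (by norm_num) (by norm_num),
      bl (83/125) (107/250) (1) hc (by norm_num) (by norm_num),
      bl (-369/500) (193/500) (1) ha (by norm_num) (by norm_num),
      bl (-22/25) (-67/250) (1) hb (by norm_num) (by norm_num),
      bl (11/100) (-6/25) (43/100) hv (by norm_num) (by norm_num)]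
  · linarith [ed (29/250) (-121/500) 1 v z (by norm_num),
      ed (421/500) (-153/500) 1 d t (by norm_num),
      ed (331/500) (43/100) 1 c s (by norm_num),
      ed (-369/500) (193/500) 1 a z (by norm_num),
      ed (-311/500) (18/125) 1 z s (by norm_num),
      ed (1/25) (287/500) 1 s t (by norm_num),
      ed (441/500) (67/250) 1 t b (by norm_num),
      bl (421/500) (-153/500) (1) hd (by norm_num) (by norm_num),
      bl (331/500) (43/100) (1) hc (by norm_num) (by norm_num),
      bl (-369/500) (193/500) (1) ha (by norm_num) (by norm_num),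
      bl (-441/500) (-67/250) (1) hb (by norm_num) (by norm_num),
      bl (29/250) (-121/500) (11/25) hv (by norm_num) (by norm_num)]
  · linarith [ed (1/13) (0) 1 v z (by norm_num),
      ed (11/13) (-4/13) 1 d t (by norm_num),
      ed (11/13) (4/13) 1 c s (by norm_num),
      ed (-23/26) (7/26) 1 a s (by norm_num),
      ed (-1/26) (15/26) 1 s z (by norm_num),
      ed (1/26) (15/26) 1 z t (by norm_num),
      ed (23/26) (7/26) 1 t b (by norm_num),
      bl (-23/26) (7/26) (1) ha (by norm_num) (by norm_num),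
      bl (-23/26) (-7/26) (1) hb (by norm_num) (by norm_num),
      bl (11/13) (4/13) (1) hc (by norm_num) (by norm_num),
      bl (11/13) (-4/13) (1) hd (by norm_num) (by norm_num),
      bl (1/13) (0) (2/25) hv (by norm_num) (by norm_num)]
  · linarith [ed (29/250) (121/500) 1 v z (by norm_num),
      ed (331/500) (-43/100) 1 d t (by norm_num),
      ed (421/500) (153/500) 1 c s (by norm_num),
      ed (-441/500) (67/250) 1 a s (by norm_num),
      ed (-1/25) (287/500) 1 s t (by norm_num),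
      ed (311/500) (18/125) 1 t z (by norm_num),
      ed (369/500) (193/500) 1 z b (by norm_num),
      bl (331/500) (-43/100) (1) hd (by norm_num) (by norm_num),
      bl (421/500) (153/500) (1) hc (by norm_num) (by norm_num),
      bl (-441/500) (67/250) (1) ha (by norm_num) (by norm_num),
      bl (-369/500) (-193/500) (1) hb (by norm_num) (by norm_num),
      bl (29/250) (121/500) (11/25) hv (by norm_num) (by norm_num)]

theorem numM {a b c d v : E} {L : ℝ}
    (ha : dist (pt (-153/8) (89/8)) a ≤ (1/4))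
    (hb : dist (pt (-153/8) (-89/8)) b ≤ (1/4))
    (hc : dist (pt (153/8) (89/8)) c ≤ (1/4))
    (hd : dist (pt (153/8) (-89/8)) d ≤ (1/4))
    (hv : dist (pt (8) (0)) v ≤ (1/4))
    (h : C7 a b c d v L) : 104 ≤ L := by
  rcases h with ⟨s, t, h⟩ | h | ⟨s, t, z, h | h | h | h | h⟩
  · linarith [ed (1/2) (-1/2) 1 d t (by norm_num),
      ed (1/2) (1/2) 1 c t (by norm_num),
      ed (1) (0) 1 t s (by norm_num),
      ed (-1/2) (1/2) 1 a s (by norm_num),
      ed (1/2) (1/2) 1 s b (by norm_num),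
      bl (-1/2) (1/2) (1) ha (by norm_num) (by norm_num),
      bl (-1/2) (-1/2) (1) hb (by norm_num) (by norm_num),
      bl (1/2) (1/2) (1) hc (by norm_num) (by norm_num),
      bl (1/2) (-1/2) (1) hd (by norm_num) (by norm_num)]
  · linarith [ed (-7/10) (2/5) 1 a d (by norm_num),
      ed (-7/10) (-2/5) 1 b c (by norm_num),
      bl (-7/10) (2/5) (99/100) ha (by norm_num) (by norm_num),
      bl (7/10) (-2/5) (99/100) hd (by norm_num) (by norm_num),
      bl (-7/10) (-2/5) (99/100) hb (by norm_num) (by norm_num),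
      bl (7/10) (2/5) (99/100) hc (by norm_num) (by norm_num)]
  · linarith [ed (41/100) (34/125) 1 v z (by norm_num),
      ed (127/250) (-247/500) 1 d z (by norm_num),
      ed (459/500) (-111/500) 1 z t (by norm_num),
      ed (99/125) (87/250) 1 c s (by norm_num),
      ed (-459/500) (111/500) 1 a s (by norm_num),
      ed (-63/500) (57/100) 1 s t (by norm_num),
      ed (99/125) (87/250) 1 t b (by norm_num),
      bl (127/250) (-247/500) (1) hd (by norm_num) (by norm_num),
      bl (99/125) (87/250) (1) hc (by norm_num) (by norm_num),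
      bl (-459/500) (111/500) (1) ha (by norm_num) (by norm_num),
      bl (-99/125) (-87/250) (1) hb (by norm_num) (by norm_num),
      bl (41/100) (34/125) (63/100) hv (by norm_num) (by norm_num)]
  · linarith [ed (41/100) (-34/125) 1 v z (by norm_num),
      ed (99/125) (-87/250) 1 d t (by norm_num),
      ed (127/250) (247/500) 1 c z (by norm_num),
      ed (459/500) (111/500) 1 z s (by norm_num),
      ed (-99/125) (87/250) 1 a s (by norm_num),
      ed (63/500) (57/100) 1 s t (by norm_num),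
      ed (459/500) (111/500) 1 t b (by norm_num),
      bl (99/125) (-87/250) (1) hd (by norm_num) (by norm_num),
      bl (127/250) (247/500) (1) hc (by norm_num) (by norm_num),
      bl (-99/125) (87/250) (1) ha (by norm_num) (by norm_num),
      bl (-459/500) (-111/500) (1) hb (by norm_num) (by norm_num),
      bl (41/100) (-34/125) (63/100) hv (by norm_num) (by norm_num)]
  · linarith [ed (9/20) (-32/125) 1 v z (by norm_num),
      ed (39/50) (-179/500) 1 d t (by norm_num),
      ed (127/250) (247/500) 1 c s (by norm_num),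
      ed (-203/250) (83/250) 1 a z (by norm_num),
      ed (-181/500) (19/250) 1 z s (by norm_num),
      ed (73/500) (57/100) 1 s t (by norm_num),
      ed (463/500) (53/250) 1 t b (by norm_num),
      bl (39/50) (-179/500) (1) hd (by norm_num) (by norm_num),
      bl (127/250) (247/500) (1) hc (by norm_num) (by norm_num),
      bl (-203/250) (83/250) (1) ha (by norm_num) (by norm_num),
      bl (-463/500) (-53/250) (1) hb (by norm_num) (by norm_num),
      bl (9/20) (-32/125) (16/25) hv (by norm_num) (by norm_num)]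
  · linarith [ed (73/250) (0) 1 v z (by norm_num),
      ed (39/50) (-179/500) 1 d t (by norm_num),
      ed (39/50) (179/500) 1 c s (by norm_num),
      ed (-463/500) (53/250) 1 a s (by norm_num),
      ed (-73/500) (57/100) 1 s z (by norm_num),
      ed (73/500) (57/100) 1 z t (by norm_num),
      ed (463/500) (53/250) 1 t b (by norm_num),
      bl (39/50) (-179/500) (1) hd (by norm_num) (by norm_num),
      bl (39/50) (179/500) (1) hc (by norm_num) (by norm_num),
      bl (-463/500) (53/250) (1) ha (by norm_num) (by norm_num),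
      bl (-463/500) (-53/250) (1) hb (by norm_num) (by norm_num),
      bl (73/250) (0) (3/10) hv (by norm_num) (by norm_num)]
  · linarith [ed (9/20) (32/125) 1 v z (by norm_num),
      ed (127/250) (-247/500) 1 d t (by norm_num),
      ed (39/50) (179/500) 1 c s (by norm_num),
      ed (-463/500) (53/250) 1 a s (by norm_num),
      ed (-73/500) (57/100) 1 s t (by norm_num),
      ed (181/500) (19/250) 1 t z (by norm_num),
      ed (203/250) (83/250) 1 z b (by norm_num),
      bl (127/250) (-247/500) (1) hd (by norm_num) (by norm_num),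
      bl (39/50) (179/500) (1) hc (by norm_num) (by norm_num),
      bl (-463/500) (53/250) (1) ha (by norm_num) (by norm_num),
      bl (-203/250) (-83/250) (1) hb (by norm_num) (by norm_num),
      bl (9/20) (32/125) (16/25) hv (by norm_num) (by norm_num)]


theorem dle {x y u v t : ℝ} (h : (x - u) ^ 2 + 3 * (y - v) ^ 2 ≤ t ^ 2) (ht : 0 ≤ t) :
    dist (pt x y) (pt u v) ≤ t := by
  refine abs_le_of_sq_le_sq' ?_ ht |>.2
  rw [dist_sq]
  simp only [X_pt, Y_pt]
  linarith

theorem seg_le {x y u v : ℝ} (t : ℝ) (h : (x - u) ^ 2 + 3 * (y - v) ^ 2 ≤ t ^ 2) (ht : 0 ≤ t) :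
    mu (segment ℝ (pt x y) (pt u v)) ≤ ENNReal.ofReal t := by
  rw [hausdorffMeasure_segment, edist_dist]
  exact ENNReal.ofReal_le_ofReal (dle h ht)

theorem un_le {A B : Set E} {s t : ℝ} (h1 : mu A ≤ ENNReal.ofReal s) (h2 : mu B ≤ ENNReal.ofReal t)
    (hs : 0 ≤ s) (ht : 0 ≤ t) : mu (A ∪ B) ≤ ENNReal.ofReal (s + t) := by
  rw [ENNReal.ofReal_add hs ht]
  exact (measure_union_le _ _).trans (add_le_add h1 h2)

theorem XY (a b : ℝ) (z w : E) : X (a • z + b • w) = a * X z + b * X w ∧
    Y (a • z + b • w) = a * Y z + b * Y w := by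
  simp only [X, Y, PiLp.add_apply, PiLp.smul_apply, smul_eq_mul]
  exact ⟨trivial, by ring⟩

theorem seg_xy {x y u v : ℝ} {z : E} (h : z ∈ segment ℝ (pt x y) (pt u v)) :
    ∃ a b : ℝ, 0 ≤ a ∧ 0 ≤ b ∧ a + b = 1 ∧ X z = a * x + b * u ∧ Y z = a * (3 * y) + b * (3 * v) := by
  obtain ⟨a, b, ha, hb, hab, rfl⟩ := h
  exact ⟨a, b, ha, hb, hab, by simpa using XY a b (pt x y) (pt u v)⟩

noncomputable def S : Set E :=
  segment ℝ (pt (-8) 0) (pt 8 0) ∪ segment ℝ (pt (-8) 0) (pt (-19) 11) ∪
    segment ℝ (pt (-8) 0) (pt (-19) (-11)) ∪ segment ℝ (pt 8 0) (pt 19 11) ∪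
    segment ℝ (pt 8 0) (pt 19 (-11))

noncomputable def T : Set E :=
  segment ℝ (pt 2 0) (pt (285 / 169) (795 / 169)) ∪ segment ℝ (pt 2 0) (pt (285 / 169) (-795 / 169)) ∪
    segment ℝ (pt (285 / 169) (795 / 169)) (pt (-19) 11) ∪
    segment ℝ (pt (285 / 169) (795 / 169)) (pt 19 11) ∪
    segment ℝ (pt (285 / 169) (-795 / 169)) (pt (-19) (-11)) ∪
    segment ℝ (pt (285 / 169) (-795 / 169)) (pt 19 (-11))

noncomputable def A : Set E := {pt (-19) 11, pt (-19) (-11), pt 19 11, pt 19 (-11), pt 2 0}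

noncomputable def M : Set E := {pt (-153 / 8) (89 / 8), pt (-153 / 8) (-89 / 8), pt (153 / 8) (89 / 8),
  pt (153 / 8) (-89 / 8), pt 8 0}

theorem seg_c (x y : E) : IsCompact (segment ℝ x y) := by
  rw [segment_eq_image]
  exact isCompact_Icc.image (by fun_prop)

theorem con {U : Set E} (h : IsConnected U) {x : E} (y : E) (hx : x ∈ U) :
    IsConnected (U ∪ segment ℝ x y) :=
  h.union ⟨x, hx, left_mem_segment _ _ _⟩
    ((convex_segment x y).isConnected ⟨x, left_mem_segment _ _ _⟩)

theorem S_con : IsConnected S := by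
  refine con (con (con (con ((convex_segment _ _).isConnected ⟨_, left_mem_segment _ _ _⟩)
    _ ?_) _ ?_) _ ?_) _ ?_ <;> simp [left_mem_segment, right_mem_segment]

theorem T_con : IsConnected T := by
  refine con (con (con (con (con ((convex_segment _ _).isConnected ⟨_, left_mem_segment _ _ _⟩)
    _ ?_) _ ?_) _ ?_) _ ?_) _ ?_ <;> simp [left_mem_segment, right_mem_segment]

theorem S_le : mu S ≤ ENNReal.ofReal 104 := by
  convert un_le (un_le (un_le (un_le (seg_le 16 ?_ ?_) (seg_le 22 ?_ ?_) ?_ ?_) (seg_le 22 ?_ ?_) ?_ ?_)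
    (seg_le 22 ?_ ?_) ?_ ?_) (seg_le 22 ?_ ?_) ?_ ?_ using 2
  all_goals first | rfl | norm_num

theorem T_le : mu T ≤ ENNReal.ofReal 104 := by
  convert un_le (un_le (un_le (un_le (un_le (seg_le (106 / 13) ?_ ?_) (seg_le (106 / 13) ?_ ?_) ?_ ?_)
    (seg_le (304 / 13) ?_ ?_) ?_ ?_) (seg_le (266 / 13) ?_ ?_) ?_ ?_) (seg_le (304 / 13) ?_ ?_) ?_ ?_)
    (seg_le (266 / 13) ?_ ?_) ?_ ?_ using 2
  all_goals first | rfl | norm_num

theorem A_S : A ⊆ S := by
  have : pt 2 0 ∈ segment ℝ (pt (-8) 0) (pt 8 0) :=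
    ⟨3 / 8, 5 / 8, by norm_num, by norm_num, by norm_num,
      ext_xy (by rw [(XY _ _ _ _).1]; norm_num) (by rw [(XY _ _ _ _).2]; norm_num)⟩
  simp [A, S, insert_subset_iff, right_mem_segment, this]

theorem A_T : A ⊆ T := by
  simp [A, T, insert_subset_iff, left_mem_segment, right_mem_segment]

theorem lowA {W : Set E} (hW : IsCompact W) (hc : IsConnected W) (h : A ⊆ W) :
    ENNReal.ofReal 104 ≤ mu W := by
  by_cases hf : mu W = ⊤
  · simp [hf]
  simp only [A, insert_subset_iff, singleton_subset_iff] at h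
  obtain ⟨h1, h2, h3, h4, h5⟩ := h
  exact (ENNReal.ofReal_le_iff_le_toReal hf).2 (numA (by simp) (by simp) (by simp) (by simp) (by simp)
    (cases7 hW hc.2 hf h1 h2 h3 h4 h5))

theorem lowM {W : Set E} (hW : IsCompact W) (hc : IsConnected W)
    (h : ∀ y ∈ M, infDist y W ≤ 1 / 4) : ENNReal.ofReal 104 ≤ mu W := by
  by_cases hf : mu W = ⊤
  · simp [hf]
  have k : ∀ y ∈ M, ∃ z ∈ W, dist y z ≤ 1 / 4 := fun y hy => by
    obtain ⟨z, hz, e⟩ := hW.exists_infDist_eq_dist hc.1 y
    exact ⟨z, hz, e ▸ h y hy⟩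
  simp only [M, mem_insert_iff, mem_singleton_iff, forall_eq_or_imp, forall_eq] at k
  obtain ⟨⟨a, h1, k1⟩, ⟨b, h2, k2⟩, ⟨c, h3, k3⟩, ⟨d, h4, k4⟩, v, h5, k5⟩ := k
  exact (ENNReal.ofReal_le_iff_le_toReal hf).2 (numM k1 k2 k3 k4 k5 (cases7 hW hc.2 hf h1 h2 h3 h4 h5))

theorem S_box {z : E} (h : z ∈ S) : -19 ≤ X z ∧ X z ≤ 19 ∧ -33 ≤ Y z ∧ Y z ≤ 33 := by
  rcases h with (((h | h) | h) | h) | h <;> obtain ⟨a, b, ha, hb, hab, h1, h2⟩ := seg_xy h <;>
    refine ⟨?_, ?_, ?_, ?_⟩ <;> linarith

theorem T_near {z : E} (h : z ∈ T) : z = pt 2 0 ∨ X z < 2 ∨ 14 ≤ |Y z| := by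
  have k : ∀ y : ℝ, z ∈ segment ℝ (pt 2 0) (pt (285 / 169) y) → z = pt 2 0 ∨ X z < 2 := fun y h => by
    obtain ⟨a, b, ha, hb, hab, h1, h2⟩ := seg_xy h
    rcases hb.eq_or_lt with rfl | hb
    · exact Or.inl (ext_xy (by simp; linarith) (by simpa using h2))
    · exact Or.inr (by linarith)
  rcases h with ((((h | h) | h) | h) | h) | h
  · exact (k _ h).imp_right Or.inl
  · exact (k _ h).imp_right Or.inl
  all_goals
    obtain ⟨a, b, ha, hb, hab, h1, h2⟩ := seg_xy h
    refine Or.inr (Or.inr ?_)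
    rw [le_abs]
    first | (left; linarith) | (right; linarith)

theorem corner {p q : ℝ} {x y : E} (hp : p = 19 ∨ p = -19) (hq : q = 11 ∨ q = -11) (hxy : x ≠ y)
    (hS : segment ℝ x y ⊆ S) : pt p q ∉ openSegment ℝ x y := by
  rintro ⟨a, b, ha, hb, hab, h⟩
  obtain ⟨h1, h2⟩ := XY a b x y
  rw [h, X_pt] at h1
  rw [h, Y_pt] at h2
  obtain ⟨a1, a2, a3, a4⟩ := S_box (hS (left_mem_segment ℝ x y))
  obtain ⟨b1, b2, b3, b4⟩ := S_box (hS (right_mem_segment ℝ x y))
  have k : ∀ u v c : ℝ, u ≤ c → v ≤ c → c = a * u + b * v → u = v := fun u v c hu hv e => by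
    have e1 : a * (c - u) + b * (c - v) = 0 := by linear_combination c * hab + e
    have := mul_nonneg ha.le (sub_nonneg.2 hu)
    have := mul_nonneg hb.le (sub_nonneg.2 hv)
    have e2 : c - u = 0 := (mul_eq_zero.1 (by linarith : a * (c - u) = 0)).resolve_left ha.ne'
    have e3 : c - v = 0 := (mul_eq_zero.1 (by linarith : b * (c - v) = 0)).resolve_left hb.ne'
    linarith
  refine hxy (ext_xy ?_ ?_)
  · rcases hp with rfl | rfl
    · exact k _ _ _ a2 b2 h1
    · exact neg_injective (k _ _ 19 (by linarith) (by linarith) (by linarith))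
  · rcases hq with rfl | rfl
    · exact k _ _ 33 a4 b4 (by linarith)
    · exact neg_injective (k _ _ 33 (by linarith) (by linarith) (by linarith))

theorem bend {x y : E} (hxy : x ≠ y) (hT : segment ℝ x y ⊆ T) : pt 2 0 ∉ openSegment ℝ x y := by
  intro hv
  have k : ∀ z ∈ segment ℝ x y, z ≠ pt 2 0 → X z < 2 := by
    intro z hz hne
    have p0 : 0 < 1 + |Y z| := by positivity
    set t := 1 / (1 + |Y z|) with ht
    have t0 : 0 < t := by positivity
    have t1 : t * (1 + |Y z|) = 1 := by rw [ht]; field_simp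
    have t2 : 0 ≤ t * |Y z| := by positivity
    have hm := (convex_segment x y) hz (openSegment_subset_segment ℝ x y hv) t0.le
      (show 0 ≤ 1 - t by linarith) (by ring)
    obtain ⟨h1, h2⟩ := XY t (1 - t) z (pt 2 0)
    simp only [X_pt, Y_pt, mul_zero, add_zero] at h1 h2
    rcases T_near (hT hm) with h | h | h
    · rw [h, X_pt] at h1
      rw [h, Y_pt] at h2
      refine absurd (ext_xy (mul_left_cancel₀ t0.ne' ?_) (mul_left_cancel₀ t0.ne' ?_)) hne <;>
        simp only [X_pt, Y_pt] <;> linarith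
    · exact lt_of_mul_lt_mul_left (by linarith) t0.le
    · rw [h2, abs_mul, abs_of_pos t0] at h
      linarith
  have h1 := k x (left_mem_segment ℝ x y) fun h => hxy (left_mem_openSegment_iff.1 (by rwa [← h] at hv : x ∈ openSegment ℝ x y))
  have h2 := k y (right_mem_segment ℝ x y) fun h => hxy (right_mem_openSegment_iff.1 (by rwa [← h] at hv : y ∈ openSegment ℝ x y))
  obtain ⟨a, b, ha, hb, hab, h⟩ := hv
  have := (XY a b x y).1
  rw [h, X_pt] at this
  nlinarith

theorem main : ∃ (d : ℕ) (A S T M : Set (EuclideanSpace ℝ (Fin d))) (r : ℝ),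
    IsCompact A ∧ A.Nonempty ∧ IsTotallyDisconnected A ∧
    (IsCompact S ∧ IsConnected S ∧ A ⊆ S ∧
      MeasureTheory.Measure.hausdorffMeasure 1 S < ⊤ ∧
      ∀ S' : Set (EuclideanSpace ℝ (Fin d)), IsCompact S' → IsConnected S' → A ⊆ S' →
        MeasureTheory.Measure.hausdorffMeasure 1 S ≤ MeasureTheory.Measure.hausdorffMeasure 1 S') ∧
    (IsCompact T ∧ IsConnected T ∧ A ⊆ T ∧
      MeasureTheory.Measure.hausdorffMeasure 1 T < ⊤ ∧
      ∀ S' : Set (EuclideanSpace ℝ (Fin d)), IsCompact S' → IsConnected S' → A ⊆ S' →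
        MeasureTheory.Measure.hausdorffMeasure 1 T ≤ MeasureTheory.Measure.hausdorffMeasure 1 S') ∧
    S ≠ T ∧
    IsCompact M ∧ M.Nonempty ∧ 0 < r ∧
    (A.Finite → M.Finite ∧ M.ncard = A.ncard) ∧
    (¬ ∃ a ∈ A,
        (∃ x y : EuclideanSpace ℝ (Fin d), x ≠ y ∧ segment ℝ x y ⊆ S ∧ a ∈ openSegment ℝ x y) ∧
        (∃ x y : EuclideanSpace ℝ (Fin d), x ≠ y ∧ segment ℝ x y ⊆ T ∧ a ∈ openSegment ℝ x y)) ∧
    (∀ y ∈ M, Metric.infDist y S ≤ r) ∧
    ∀ W : Set (EuclideanSpace ℝ (Fin d)), IsCompact W → IsConnected W →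
      (∀ y ∈ M, Metric.infDist y W ≤ r) →
        MeasureTheory.Measure.hausdorffMeasure 1 S ≤ MeasureTheory.Measure.hausdorffMeasure 1 W := by
  have fA : A.Finite := by simp [A]
  have fM : M.Finite := by simp [M]
  have s8 : pt 8 0 ∈ S := by simp [S, left_mem_segment]
  refine ⟨2, A, S, T, M, 1 / 4, fA.isCompact, by simp [A], fA.countable.isTotallyDisconnected,
    ⟨?_, S_con, A_S, S_le.trans_lt ENNReal.ofReal_lt_top, fun W a b c => S_le.trans (lowA a b c)⟩,
    ⟨?_, T_con, A_T, T_le.trans_lt ENNReal.ofReal_lt_top, fun W a b c => T_le.trans (lowA a b c)⟩,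
    fun h => ?_, fM.isCompact, by simp [M], by norm_num, fun _ => ⟨fM, ?_⟩, ?_, ?_,
    fun W a b c => S_le.trans (lowM a b c)⟩
  · exact ((((seg_c _ _).union (seg_c _ _)).union (seg_c _ _)).union (seg_c _ _)).union (seg_c _ _)
  · exact (((((seg_c _ _).union (seg_c _ _)).union (seg_c _ _)).union (seg_c _ _)).union
      (seg_c _ _)).union (seg_c _ _)
  · rcases T_near (h ▸ s8) with h | h | h <;> norm_num at h
  · unfold A M
    repeat rw [ncard_insert_of_notMem (by norm_num)]
    simp
  · rintro ⟨a, ha, ⟨x, y, h1, h2, h3⟩, u, v, h4, h5, h6⟩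
    rcases ha with rfl | rfl | rfl | rfl | rfl
    · exact corner (by simp) (by simp) h1 h2 h3
    · exact corner (by simp) (by simp) h1 h2 h3
    · exact corner (by simp) (by simp) h1 h2 h3
    · exact corner (by simp) (by simp) h1 h2 h3
    · exact bend h4 h5 h6
  · have := A_S
    simp only [A, insert_subset_iff] at this
    rintro y (rfl | rfl | rfl | rfl | rfl)
    · exact (infDist_le_dist_of_mem this.1).trans (dle (by norm_num) (by norm_num))
    · exact (infDist_le_dist_of_mem this.2.1).trans (dle (by norm_num) (by norm_num))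
    · exact (infDist_le_dist_of_mem this.2.2.1).trans (dle (by norm_num) (by norm_num))
    · exact (infDist_le_dist_of_mem this.2.2.2.1).trans (dle (by norm_num) (by norm_num))
    · exact (infDist_le_dist_of_mem s8).trans (by norm_num)

end Pool.Agent.H.MP_93ef73_gt
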